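import Pool.Agent.TFL.Galois

/-!
# Euler factors bound the torsion terms
-/

set_option autoImplicit false

namespace Pool.Agent.TFL

open Submodule Polynomial

section abstract

variable {O : Type*} [CommRing O] [IsDomain O]
variable {K : Type*} [Field K] [Algebra O K]
variable {V : Type*} [AddCommGroup V] [Module K V] [Module O V] [IsScalarTower O K V]

/-- a polynomial in `A` maps a submodule stable under `A` into itself -/
theorem aeval_mem (A : V →ₗ[O] V) (T : Submodule O V) (hA : ∀ x ∈ T, A x ∈ T) (Q : O[X]) :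
    ∀ x ∈ T, (aeval A Q) x ∈ T := by
  induction Q using Polynomial.induction_on' with
  | add p q hp hq => intro x hx; rw [map_add]; exact T.add_mem (hp x hx) (hq x hx)
  | monomial n a =>
    intro x hx
    rw [aeval_monomial]
    have h : ∀ n : ℕ, (A ^ n) x ∈ T := by
      intro n
      induction n with
      | zero => simpa using hx
      | succ n ih => rw [pow_succ', Module.End.mul_apply]; exact hA _ ih
    rw [Module.End.mul_apply, Module.algebraMap_end_apply]
    exact T.smul_mem _ (h n)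

/-- Cayley-Hamilton over `O` -/
theorem aeval_zero [FiniteDimensional K V] (F : V →ₗ[K] V) (P : O[X])
    (hP : F.charpoly = P.map (algebraMap O K)) : aeval (F.restrictScalars O) P = 0 := by
  have h1 : aeval F (P.map (algebraMap O K)) = 0 := by
    rw [← hP]; exact F.aeval_self_charpoly
  have h2 : ∀ Q : O[X], ∀ v, (aeval (F.restrictScalars O) Q) v =
      (aeval F (Q.map (algebraMap O K))) v := by
    intro Q
    induction Q using Polynomial.induction_on' with
    | add p q hp hq => intro v; simp [hp v, hq v]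
    | monomial n a =>
      intro v
      have h : ∀ n : ℕ, ((F.restrictScalars O) ^ n) v = (F ^ n) v := by
        intro n
        induction n with
        | zero => simp
        | succ n ih =>
          rw [pow_succ', pow_succ', Module.End.mul_apply, Module.End.mul_apply, ih]
          rfl
      rw [map_monomial, aeval_monomial, aeval_monomial, Module.End.mul_apply,
        Module.End.mul_apply, Module.algebraMap_end_apply, Module.algebraMap_end_apply, h,
        algebraMap_smul]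
  ext v
  rw [h2, h1]
  rfl

theorem eval_smul_mem [FiniteDimensional K V] (F : V →ₗ[K] V) (P : O[X])
    (hP : F.charpoly = P.map (algebraMap O K)) (T : Submodule O V) (hF : ∀ x ∈ T, F x ∈ T)
    (a : O) (v : V) (hv : F v - a • v ∈ T) : (P.eval a) • v ∈ T := by
  obtain ⟨Q, hQ⟩ := X_sub_C_dvd_sub_C_eval (a := a) (p := P)
  have h1 := congrArg (aeval (F.restrictScalars O)) hQ
  rw [map_sub, aeval_zero F P hP, mul_comm, map_mul, map_sub, aeval_X, aeval_C, aeval_C] at h1
  have h2 := congrArg (fun f : V →ₗ[O] V => f v) h1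
  simp only [LinearMap.sub_apply, LinearMap.zero_apply, Module.algebraMap_end_apply,
    Module.End.mul_apply, LinearMap.coe_restrictScalars] at h2
  have h3 := aeval_mem (F.restrictScalars O) T (fun x hx => hF x hx) Q _ hv
  rw [← h2, zero_sub] at h3
  simpa using T.neg_mem h3

end abstract

section norm

open NumberField

/-- an algebraic integer whose conjugates are bounded and nonzero is a unit at primes above
large rational primes -/
theorem isUnit_of_bound {q : ℕ} [hq : Fact q.Prime] {O : Type*} [CommRing O] [Algebra ℤ_[q] O]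
    (E : Type*) [Field E] [NumberField E] (ι : 𝓞 E →+* O) (x : 𝓞 E) (B : ℕ) (hx : x ≠ 0)
    (hB : ∀ τ : E →ₐ[ℚ] ℂ, ‖τ (x : E)‖ ≤ B)
    (hqB : B ^ Module.finrank ℚ E < q) : IsUnit (ι x) := by
  have h1 : (Ideal.absNorm (Ideal.span {x}) : 𝓞 E) ∈ Ideal.span {x} := Ideal.absNorm_mem _
  obtain ⟨y, hy⟩ := Ideal.mem_span_singleton.1 h1
  have h2 : Ideal.absNorm (Ideal.span {x}) = (Algebra.norm ℤ x).natAbs :=
    Ideal.absNorm_span_singleton x
  have h3 : (Algebra.norm ℤ x) ≠ 0 := by
    rw [Ne, Algebra.norm_eq_zero_iff]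
    exact hx
  have h4 : ((Algebra.norm ℤ x).natAbs : ℝ) ≤ (B : ℝ) ^ Module.finrank ℚ E := by
    have h5 : ((Algebra.norm ℤ x : ℚ) : ℂ) = ∏ τ : E →ₐ[ℚ] ℂ, τ (x : E) := by
      rw [Algebra.coe_norm_int]
      exact Algebra.norm_eq_prod_embeddings ℚ ℂ (x : E)
    have h6 : ‖((Algebra.norm ℤ x : ℚ) : ℂ)‖ = ((Algebra.norm ℤ x).natAbs : ℝ) := by
      push_cast
      rw [Complex.norm_intCast, Nat.cast_natAbs, Int.cast_abs]
    rw [← h6, h5, norm_prod]
    calc ∏ τ : E →ₐ[ℚ] ℂ, ‖τ (x : E)‖ ≤ ∏ _τ : E →ₐ[ℚ] ℂ, (B : ℝ) :=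
          Finset.prod_le_prod (fun _ _ => norm_nonneg _) (fun τ _ => hB τ)
      _ = (B : ℝ) ^ Module.finrank ℚ E := by
          rw [Finset.prod_const, Finset.card_univ, AlgHom.card]
  have h7 : (Algebra.norm ℤ x).natAbs < q := by
    have : ((Algebra.norm ℤ x).natAbs : ℝ) < q := lt_of_le_of_lt h4 (by exact_mod_cast hqB)
    exact_mod_cast this
  have h8 : IsUnit (((Algebra.norm ℤ x).natAbs : ℕ) : ℤ_[q]) := by
    rw [PadicInt.isUnit_iff, PadicInt.norm_natCast_eq_one_iff]
    rw [Nat.coprime_iff_gcd_eq_one, ← Nat.coprime_iff_gcd_eq_one]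
    exact (Nat.coprime_of_lt_prime (by
      have := Int.natAbs_ne_zero.2 h3
      omega) h7 hq.out)
  have h9 := h8.map (algebraMap ℤ_[q] O)
  rw [map_natCast] at h9
  have h10 : ι x * ι y = (((Algebra.norm ℤ x).natAbs : ℕ) : O) := by
    rw [← map_mul, ← hy, h2, map_natCast]
  rw [← h10] at h9
  exact isUnit_of_mul_isUnit_left h9

/-- the value of a Weil polynomial at a power of `p` -/
theorem weil_eval {p : ℕ} (hp : p.Prime) (w t n : ℕ) (h1 : w < 2 * t) (h2 : t ≤ w)
    (E : Type*) [Field E] [NumberField E] (P : (𝓞 E)[X]) (hP : P.Monic) (hdeg : P.natDegree = n)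
    (hw : ∀ τ : E →ₐ[ℚ] ℂ, ∀ α : ℂ,
      (P.map ((τ : E →+* ℂ).comp (algebraMap (𝓞 E) E))).IsRoot α → ‖α‖ ^ 2 = (p : ℝ) ^ w) :
    P.eval ((p : 𝓞 E) ^ t) ≠ 0 ∧
      ∀ τ : E →ₐ[ℚ] ℂ, ‖τ ((P.eval ((p : 𝓞 E) ^ t) : 𝓞 E) : E)‖ ≤ ((p ^ (w + 1)) ^ n : ℕ) := by
  have hp1 : (1 : ℝ) < p := by exact_mod_cast hp.one_lt
  have hp2 : (2 : ℝ) ≤ p := by exact_mod_cast hp.two_le
  have key : ∀ τ : E →ₐ[ℚ] ℂ,
      τ ((P.eval ((p : 𝓞 E) ^ t) : 𝓞 E) : E) ≠ 0 ∧
      ‖τ ((P.eval ((p : 𝓞 E) ^ t) : 𝓞 E) : E)‖ ≤ ((p ^ (w + 1)) ^ n : ℕ) := by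
    intro τ
    set f := (τ : E →+* ℂ).comp (algebraMap (𝓞 E) E) with hf
    have hPf : (P.map f).Monic := hP.map f
    have hsp : (P.map f).Splits := IsAlgClosed.splits _
    have hev : τ ((P.eval ((p : 𝓞 E) ^ t) : 𝓞 E) : E) =
        ((P.map f).roots.map (fun α => (p : ℂ) ^ t - α)).prod := by
      have h3 : τ ((P.eval ((p : 𝓞 E) ^ t) : 𝓞 E) : E) = (P.map f).eval ((p : ℂ) ^ t) := by
        have : (P.map f).eval (f ((p : 𝓞 E) ^ t)) = f (P.eval ((p : 𝓞 E) ^ t)) :=
          eval_map_apply _ _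
        rw [map_pow, map_natCast] at this
        rw [this]
        rfl
      rw [h3]
      exact hsp.eval_eq_prod_roots_of_monic hPf _
    have hcard : Multiset.card (P.map f).roots = n := by
      rw [← hdeg, ← hP.natDegree_map f]
      exact (splits_iff_card_roots.1 hsp)
    have hroot : ∀ α ∈ (P.map f).roots, ‖α‖ ^ 2 = (p : ℝ) ^ w := by
      intro α hα
      exact hw τ α ((mem_roots hPf.ne_zero).1 hα)
    have hlt : ∀ α ∈ (P.map f).roots, ‖α‖ < (p : ℝ) ^ t := by
      intro α hα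
      have h4 : ‖α‖ ^ 2 < ((p : ℝ) ^ t) ^ 2 := by
        rw [hroot α hα, ← pow_mul]
        exact pow_lt_pow_right₀ hp1 (by omega)
      exact lt_of_pow_lt_pow_left₀ 2 (by positivity) h4
    have hfac : ∀ α ∈ (P.map f).roots, (p : ℂ) ^ t - α ≠ 0 ∧
        ‖(p : ℂ) ^ t - α‖ ≤ (p : ℝ) ^ (w + 1) := by
      intro α hα
      have h5 := hlt α hα
      have h6 : ‖(p : ℂ) ^ t‖ = (p : ℝ) ^ t := by simp
      constructor
      · intro h0
        rw [sub_eq_zero] at h0
        rw [← h0, h6] at h5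
        exact lt_irrefl _ h5
      · calc ‖(p : ℂ) ^ t - α‖ ≤ ‖(p : ℂ) ^ t‖ + ‖α‖ := norm_sub_le _ _
          _ ≤ (p : ℝ) ^ t + (p : ℝ) ^ t := by rw [h6]; linarith
          _ = 2 * (p : ℝ) ^ t := by ring
          _ ≤ p * (p : ℝ) ^ w := by
              apply mul_le_mul hp2 _ (by positivity) (by positivity)
              exact pow_le_pow_right₀ hp1.le h2
          _ = (p : ℝ) ^ (w + 1) := by ring
    rw [hev]
    constructor
    · rw [Ne, Multiset.prod_eq_zero_iff]
      intro h0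
      obtain ⟨α, hα, h7⟩ := Multiset.mem_map.1 h0
      exact (hfac α hα).1 h7
    · push_cast
      rw [← hcard]
      have hgen : ∀ s : Multiset ℂ, (∀ α ∈ s, ‖(p : ℂ) ^ t - α‖ ≤ (p : ℝ) ^ (w + 1)) →
          ‖(s.map (fun α => (p : ℂ) ^ t - α)).prod‖ ≤
            ((p : ℝ) ^ (w + 1)) ^ (Multiset.card s) := by
        intro s
        induction s using Multiset.induction_on with
        | empty => intro _; simp
        | cons a s ih =>
          intro hs
          rw [Multiset.map_cons, Multiset.prod_cons, norm_mul, Multiset.card_cons, pow_succ']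
          exact mul_le_mul (hs a (Multiset.mem_cons_self a s))
            (ih (fun α hα => hs α (Multiset.mem_cons_of_mem hα))) (norm_nonneg _) (by positivity)
      exact hgen _ (fun α hα => (hfac α hα).2)
  refine ⟨?_, fun τ => (key τ).2⟩
  intro h0
  let τ : E →ₐ[ℚ] ℂ := IsAlgClosed.lift
  apply (key τ).1
  rw [h0]
  simp

end norm

section final

open NumberField

/-- the group element `φ` is a geometric Frobenius at `p` with characteristic polynomial `P`: its
inverse acts on the roots of unity of `q`-power order by the `p`-th power, and the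
characteristic polynomial of `ρ(φ)` is the image of `P` -/
structure IsFrobenius (q : ℕ) [Fact q.Prime] {O K V E : Type*} [CommRing O] [Algebra ℤ_[q] O]
    [Field K] [Algebra O K] [AddCommGroup V] [Module K V] [FiniteDimensional K V] [Field E]
    (ι : 𝓞 E →+* O) (ρ : GQ →* (V →ₗ[K] V)) (p : ℕ) (φ : GQ) (P : (𝓞 E)[X]) : Prop where
  eps_inv : ((eps q O φ⁻¹ : Oˣ) : O) = (p : O)
  charpoly : (ρ φ).charpoly = P.map ((algebraMap O K).comp ι)

/-- the class of `v` in `V / T` is an element of `H⁰(ℚ, T(t) ⊗ A)` -/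
def IsInvariant (q : ℕ) [Fact q.Prime] {O K V : Type*} [CommRing O] [Algebra ℤ_[q] O] [Field K]
    [AddCommGroup V] [Module K V] [Module O V] (ρ : GQ →* (V →ₗ[K] V)) (t : ℤ)
    (T : Submodule O V) (v : V) : Prop :=
  ∀ σ, (((eps q O σ) ^ t : Oˣ) : O) • ρ σ v - v ∈ T

/-- `f : T → K / O` is an element of `H⁰(ℚ, T*(1 - t) ⊗ A)` -/
def IsDualInvariant (q : ℕ) [Fact q.Prime] {O K V : Type*} [CommRing O] [Algebra ℤ_[q] O]
    [Field K] [Algebra O K] [AddCommGroup V] [Module K V] [Module O V] (ρ : GQ →* (V →ₗ[K] V))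
    (t : ℤ) (T : Submodule O V)
    (f : T →ₗ[O] (K ⧸ LinearMap.range (Algebra.linearMap O K))) : Prop :=
  ∀ (σ : GQ) (x y : T), (y : V) = ρ σ⁻¹ (x : V) →
    (((eps q O σ) ^ (1 - t) : Oˣ) : O) • f y = f x

variable {q : ℕ} [Fact q.Prime]
variable {O : Type*} [CommRing O] [IsDomain O] [IsDiscreteValuationRing O] [Algebra ℤ_[q] O]
variable {K : Type*} [Field K] [Algebra O K] [IsFractionRing O K]
variable {V : Type*} [AddCommGroup V] [Module K V] [Module O V] [IsScalarTower O K V]
variable [FiniteDimensional K V]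

/-- the value `P(p^t)` kills the invariants of `T(t) ⊗ A` -/
theorem eval_kills {E : Type*} [Field E] {ι : 𝓞 E →+* O} {ρ : GQ →* (V →ₗ[K] V)} {p : ℕ}
    {φ : GQ} {P : (𝓞 E)[X]} (hφ : IsFrobenius q ι ρ p φ P) (T : Submodule O V)
    (hT : StableLattice ρ T) (t : ℕ) (v : V)
    (hv : ∀ σ, (((eps q O σ) ^ (t : ℤ) : Oˣ) : O) • ρ σ v - v ∈ T) :
    ι (P.eval ((p : 𝓞 E) ^ t)) • v ∈ T := by
  have h1 : (((eps q O φ⁻¹) ^ (t : ℤ) : Oˣ) : O) = (p : O) ^ t := by
    rw [zpow_natCast, Units.val_pow_eq_pow_val, hφ.eps_inv]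
  have h2 := T.smul_mem ((p : O) ^ t) (hv φ)
  rw [smul_sub, smul_smul, ← h1, ← Units.val_mul, map_inv, ← mul_zpow, inv_mul_cancel, one_zpow,
    Units.val_one, one_smul] at h2
  have h3 : (((eps q O φ)⁻¹ ^ (t : ℤ) : Oˣ) : O) = (p : O) ^ t := by
    rw [← map_inv]; exact h1
  rw [h3] at h2
  have h4 := eval_smul_mem (ρ φ) (P.map ι) (by rw [hφ.charpoly, map_map]) T
    (fun x hx => hT.stab φ x hx) ((p : O) ^ t) v h2
  have h5 : (P.map ι).eval ((p : O) ^ t) = ι (P.eval ((p : 𝓞 E) ^ t)) := by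
    rw [← eval_map_apply, map_pow, map_natCast]
  rwa [h5] at h4

/-- the value `P(p^(t-1))` kills the invariants of `T*(1-t) ⊗ A` -/
theorem eval_kills_dual {E : Type*} [Field E] {ι : 𝓞 E →+* O} {ρ : GQ →* (V →ₗ[K] V)} {p : ℕ}
    {φ : GQ} {P : (𝓞 E)[X]} (hφ : IsFrobenius q ι ρ p φ P) (T : Submodule O V)
    (hT : StableLattice ρ T) (t : ℕ) (f : T →ₗ[O] (K ⧸ LinearMap.range (Algebra.linearMap O K)))
    (hf : ∀ (σ : GQ) (x y : T), (y : V) = ρ σ⁻¹ (x : V) →
      (((eps q O σ) ^ (1 - ((t + 1 : ℕ) : ℤ)) : Oˣ) : O) • f y = f x) (x : T) :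
    ι (P.eval ((p : 𝓞 E) ^ t)) • f x = 0 := by
  -- `f` is an eigenvector for the action of `φ`
  have h1 : (((eps q O φ) ^ (1 - ((t + 1 : ℕ) : ℤ)) : Oˣ) : O) = (p : O) ^ t := by
    have e : (eps q O φ) ^ (1 - ((t + 1 : ℕ) : ℤ)) = (eps q O φ⁻¹) ^ t := by
      rw [map_inv, inv_pow, ← zpow_natCast, ← zpow_neg]
      congr 1
      push_cast
      ring
    rw [e, Units.val_pow_eq_pow_val, hφ.eps_inv]
  let F : T →ₗ[O] T := ((ρ φ).restrictScalars O).restrict (fun x hx => hT.stab φ x hx)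
  have h2 : ∀ z : T, f (F z) = (p : O) ^ t • f z := by
    intro z
    rw [← hf φ (F z) z, h1]
    have : (ρ φ⁻¹ * ρ φ) (z : V) = z := by rw [← map_mul, inv_mul_cancel, map_one]; rfl
    exact this.symm
  have h3 : ∀ Q : O[X], ∀ z : T, f ((aeval F Q) z) = (Q.eval ((p : O) ^ t)) • f z := by
    intro Q
    induction Q using Polynomial.induction_on' with
    | add p q hp hq => intro z; simp [hp z, hq z, add_smul]
    | monomial n a =>
      intro z
      have h : ∀ n : ℕ, ∀ z : T, f ((F ^ n) z) = (((p : O) ^ t) ^ n) • f z := by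
        intro n
        induction n with
        | zero => intro z; simp
        | succ n ih =>
          intro z
          rw [pow_succ', Module.End.mul_apply, h2, ih, smul_smul, ← pow_succ']
      rw [aeval_monomial, Module.End.mul_apply, Module.algebraMap_end_apply, map_smul, h,
        eval_monomial, smul_smul]
  have h4 : aeval F (P.map ι) = 0 := by
    have h5 := aeval_zero (ρ φ) (P.map ι) (by rw [hφ.charpoly, map_map])
    have h6 : ∀ Q : O[X], ∀ z : T, (((aeval F Q) z : T) : V) =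
        (aeval ((ρ φ).restrictScalars O) Q) (z : V) := by
      intro Q
      induction Q using Polynomial.induction_on' with
      | add p q hp hq => intro z; simp [hp z, hq z]
      | monomial n a =>
        intro z
        have h : ∀ n : ℕ, (((F ^ n) z : T) : V) = (((ρ φ).restrictScalars O) ^ n) (z : V) := by
          intro n
          induction n with
          | zero => simp
          | succ n ih =>
            rw [pow_succ', pow_succ', Module.End.mul_apply, Module.End.mul_apply, ← ih]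
            rfl
        rw [aeval_monomial, aeval_monomial, Module.End.mul_apply, Module.End.mul_apply,
          Module.algebraMap_end_apply, Module.algebraMap_end_apply, ← h]
        rfl
    ext z
    rw [h6, h5]
    rfl
  have h7 : (P.map ι).eval ((p : O) ^ t) = ι (P.eval ((p : 𝓞 E) ^ t)) := by
    rw [← eval_map_apply, map_pow, map_natCast]
  rw [← h7, ← h3, h4]
  simp

/-- **Vanishing of the torsion terms for large `q`.** -/
theorem torsion_bound {E : Type*} [Field E] [NumberField E] (ι : 𝓞 E →+* O)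
    (ρ : GQ →* (V →ₗ[K] V)) {p : ℕ} (hp : p.Prime) (φ : GQ) (P : (𝓞 E)[X])
    (hφ : IsFrobenius q ι ρ p φ P) (w : ℕ) (hP : P.Monic)
    (hw : ∀ τ : E →ₐ[ℚ] ℂ, ∀ α : ℂ,
      (P.map ((τ : E →+* ℂ).comp (algebraMap (𝓞 E) E))).IsRoot α → ‖α‖ ^ 2 = (p : ℝ) ^ w)
    (hq : p ^ ((w + 1) * Module.finrank K V * Module.finrank ℚ E) < q)
    (T : Submodule O V) (hT : StableLattice ρ T) (t : ℕ) (h1 : w < 2 * (t - 1)) (h2 : t ≤ w) :
    NoInvariants q ρ t T ∧ NoDualInvariants q ρ t T := by
  have hdeg : P.natDegree = Module.finrank K V := by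
    rw [← (ρ φ).charpoly_natDegree, hφ.charpoly]
    exact (hP.natDegree_map _).symm
  have unit : ∀ s : ℕ, w < 2 * s → s ≤ w → IsUnit (ι (P.eval ((p : 𝓞 E) ^ s))) := by
    intro s hs1 hs2
    obtain ⟨h3, h4⟩ := weil_eval hp w s _ hs1 hs2 E P hP hdeg hw
    exact isUnit_of_bound E ι _ _ h3 h4 (by rw [← pow_mul, ← pow_mul, ← mul_assoc]; exact hq)
  constructor
  · intro v hv
    have h5 := eval_kills hφ T hT t v hv
    obtain ⟨u, hu⟩ := unit t (by omega) h2
    rw [← hu] at h5
    have h6 := T.smul_mem (↑u⁻¹ : O) h5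
    rwa [smul_smul, Units.inv_mul, one_smul] at h6
  · intro f hf
    obtain ⟨s, rfl⟩ : ∃ s, t = s + 1 := ⟨t - 1, by omega⟩
    ext x
    have h5 := eval_kills_dual hφ T hT s f hf x
    obtain ⟨u, hu⟩ := unit s (by omega) (by omega)
    rw [← hu] at h5
    have h6 := congrArg (fun z => (↑u⁻¹ : O) • z) h5
    simp only [smul_smul, Units.inv_mul, one_smul, smul_zero] at h6
    rw [h6]
    rfl

end final

end Pool.Agent.TFL
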