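import Pool.Agent.TFL.Main

/-!
# Torsion terms of the Bloch-Kato formula: the Galois side
-/

set_option autoImplicit false

namespace Pool.Agent.TFL

open Submodule

/-- the absolute Galois group of the rational numbers: all field automorphisms of an algebraic
closure -/
abbrev GQ : Type := AlgebraicClosure ℚ ≃+* AlgebraicClosure ℚ

/-- the `q`-adic cyclotomic character of `GQ`, with values in a `ℤ_q`-algebra `O` -/
noncomputable def eps (q : ℕ) [Fact q.Prime] (O : Type*) [CommRing O] [Algebra ℤ_[q] O] :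
    GQ →* Oˣ :=
  (Units.map (algebraMap ℤ_[q] O).toMonoidHom).comp
    (cyclotomicCharacter (AlgebraicClosure ℚ) q)

/-- a stable lattice in the representation `ρ` of `GQ` on the `K`-space `V` -/
structure StableLattice {O K V : Type*} [CommRing O] [Field K] [Algebra O K] [AddCommGroup V]
    [Module K V] [Module O V] (ρ : GQ →* (V →ₗ[K] V)) (T : Submodule O V) : Prop where
  fg : T.FG
  span : Submodule.span K (T : Set V) = ⊤
  stab : ∀ σ, ∀ x ∈ T, ρ σ x ∈ T

/-- `H⁰(ℚ, T(t) ⊗ A) = 0`, where `T(t) ⊗ A` is `V / T` with the action of `ρ` twisted by the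
`t`-th power of the cyclotomic character -/
def NoInvariants (q : ℕ) [Fact q.Prime] {O K V : Type*} [CommRing O] [Algebra ℤ_[q] O] [Field K]
    [AddCommGroup V] [Module K V] [Module O V] (ρ : GQ →* (V →ₗ[K] V)) (t : ℤ)
    (T : Submodule O V) : Prop :=
  ∀ v : V, (∀ σ, (((eps q O σ) ^ t : Oˣ) : O) • ρ σ v - v ∈ T) → v ∈ T

/-- `H⁰(ℚ, T*(1 - t) ⊗ A) = 0`, where `T* ⊗ A` is the module of the `O`-linear maps from `T` to
`A = K/O`, with the action `(σ f)(x) = f(σ⁻¹ x)` twisted by the `(1 - t)`-th power of the cyclotomic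
character -/
def NoDualInvariants (q : ℕ) [Fact q.Prime] {O K V : Type*} [CommRing O] [Algebra ℤ_[q] O]
    [Field K] [Algebra O K] [AddCommGroup V] [Module K V] [Module O V] (ρ : GQ →* (V →ₗ[K] V))
    (t : ℤ) (T : Submodule O V) : Prop :=
  ∀ f : T →ₗ[O] (K ⧸ LinearMap.range (Algebra.linearMap O K)),
    (∀ (σ : GQ) (x y : T), (y : V) = ρ σ⁻¹ (x : V) →
      (((eps q O σ) ^ (1 - t) : Oˣ) : O) • f y = f x) → f = 0

theorem exists_moving (k : Type) [Field k] [CharZero k] (ζ : AlgebraicClosure k)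
    (h : ¬ ∃ r : k, algebraMap k (AlgebraicClosure k) r = ζ) :
    ∃ σ : AlgebraicClosure k ≃+* AlgebraicClosure k, σ ζ ≠ ζ := by
  by_contra hcon
  push Not at hcon
  have : IsGalois k (AlgebraicClosure k) := {}
  apply h
  have h1 : ζ ∈ (⊥ : IntermediateField k (AlgebraicClosure k)) :=
    (InfiniteGalois.mem_bot_iff_fixed ζ).2 (fun f => hcon f.toRingEquiv)
  exact IntermediateField.mem_bot.1 h1

theorem exists_eps_unit (q : ℕ) [hq : Fact q.Prime] (h2 : q ≠ 2) (O : Type*) [CommRing O]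
    [Algebra ℤ_[q] O] : ∃ σ : GQ, IsUnit (1 - ((eps q O σ : Oˣ) : O)) := by
  have hq3 : 2 < q := lt_of_le_of_ne hq.out.two_le (Ne.symm h2)
  obtain ⟨ζ, hζ⟩ := HasEnoughRootsOfUnity.exists_primitiveRoot (AlgebraicClosure ℚ) q
  have hex : ∃ σ : GQ, σ ζ ≠ ζ := by
    apply exists_moving ℚ ζ
    rintro ⟨r, hr⟩
    have hr' : IsPrimitiveRoot r q := by
      apply IsPrimitiveRoot.of_map_of_injective
        (f := @algebraMap ℚ (AlgebraicClosure ℚ) _ _ (AlgebraicClosure.instAlgebra (k := ℚ)))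
      · rw [hr]; exact hζ
      · exact RingHom.injective _
    have h1 : r ^ q = 1 := hr'.pow_eq_one
    have h3 : r = 1 := by
      have hodd : Odd q := hq.out.odd_of_ne_two h2
      have h4 : r ^ q = 1 ^ q := by rw [h1, one_pow]
      exact (Odd.strictMono_pow hodd).injective h4
    rw [h3] at hr'
    have := hr'.eq_orderOf
    simp at this
    omega
  obtain ⟨σ, hσ⟩ := hex
  refine ⟨σ, ?_⟩
  set u : ℤ_[q]ˣ := cyclotomicCharacter (AlgebraicClosure ℚ) q σ with hu
  have h1 : IsUnit (1 - (u : ℤ_[q])) := by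
    by_contra hcon
    apply hσ
    have hmem : 1 - (u : ℤ_[q]) ∈ IsLocalRing.maximalIdeal ℤ_[q] := hcon
    have hker : 1 - (u : ℤ_[q]) ∈ RingHom.ker (PadicInt.toZModPow 1 : ℤ_[q] →+* ZMod (q ^ 1)) := by
      rw [PadicInt.ker_toZModPow, pow_one, ← PadicInt.maximalIdeal_eq_span_p]
      exact hmem
    rw [RingHom.mem_ker, map_sub, map_one, sub_eq_zero] at hker
    have h3 := cyclotomicCharacter.spec q (n := 1) σ ζ (by rw [pow_one]; exact hζ.pow_eq_one)
    rw [← hu, ← hker] at h3
    have h4 : (1 : ZMod (q ^ 1)).val = 1 := by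
      have : Fact (1 < q ^ 1) := ⟨by rw [pow_one]; exact hq.out.one_lt⟩
      exact ZMod.val_one _
    rw [h4, pow_one] at h3
    exact h3
  have h5 := h1.map (algebraMap ℤ_[q] O)
  rw [map_sub, map_one] at h5
  exact h5

section final

variable {q : ℕ} [Fact q.Prime]
variable {O : Type*} [CommRing O] [IsDomain O] [IsDiscreteValuationRing O] [Algebra ℤ_[q] O]
variable {K : Type*} [Field K] [Algebra O K] [IsFractionRing O K]
variable {V : Type*} [AddCommGroup V] [Module K V] [Module O V] [IsScalarTower O K V]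

/-- an element of order two with both eigenvalues is residually not scalar -/
theorem not_nilp {ϖ : O} (hϖ : Irreducible ϖ) (h2 : IsUnit (2 : O)) (ρ : GQ →* (V →ₗ[K] V))
    (T : Submodule O V) (hT : StableLattice ρ T) (a : GQ →* Oˣ) (c : GQ) (hc : c * c = 1)
    (hp : ρ c ≠ 1) (hm : ρ c ≠ -1) :
    ∃ σ, ∀ m : ℕ, ∃ x ∈ T, ¬ ∃ z ∈ T, (Nm ρ a σ ^ m) x = ϖ • z := by
  have hcc : ∀ v, ρ c (ρ c v) = v := by
    intro v
    have : (ρ c * ρ c) v = v := by rw [← map_mul, hc, map_one]; rfl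
    exact this
  have ha : ((a c : Oˣ) : O) * ((a c : Oˣ) : O) = 1 := by
    rw [← Units.val_mul, ← map_mul, hc, map_one, Units.val_one]
  have ha' : ((a c : Oˣ) : O) = 1 ∨ ((a c : Oˣ) : O) = -1 := mul_self_eq_one_iff.1 ha
  -- a primitive vector with eigenvalue `- a c`
  have key : ∃ x ∈ T, (¬ ∃ z ∈ T, x = ϖ • z) ∧ ρ c x = -(((a c : Oˣ) : O) • x) := by
    have h3 : ∃ v : V, ρ c v - ((a c : Oˣ) : O) • v ≠ 0 := by
      by_contra hcon
      push Not at hcon
      rcases ha' with h | h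
      · apply hp
        ext v
        have := hcon v
        rw [h, one_smul, sub_eq_zero] at this
        exact this
      · apply hm
        ext v
        have := hcon v
        rw [h, neg_smul, one_smul, sub_neg_eq_add] at this
        exact eq_neg_of_add_eq_zero_left this
    obtain ⟨v, hv⟩ := h3
    obtain ⟨w, hw, hw0⟩ : ∃ w ∈ T, ρ c w - ((a c : Oˣ) : O) • w ≠ 0 := by
      obtain ⟨n, hn⟩ := exists_pow_mem (K := K) hϖ T hT.span v
      refine ⟨_, hn, ?_⟩
      rw [smul_comm_rho, smul_comm, ← smul_sub]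
      intro h0
      apply hv
      apply smul_inj (K := K) hϖ n
      rw [h0, smul_zero]
    set y := ρ c w - ((a c : Oˣ) : O) • w with hy
    have hyT : y ∈ T := T.sub_mem (hT.stab c w hw) (T.smul_mem _ hw)
    have hyc : ρ c y = -(((a c : Oˣ) : O) • y) := by
      rw [hy, map_sub, hcc, smul_comm_rho, smul_sub, smul_smul, ha, one_smul]
      abel
    -- make it primitive
    obtain ⟨n, b, hb⟩ := exists_basis (K := K) T hT.fg hT.span
    have hfin : ∃ k : ℕ, ¬ ∃ z ∈ T, y = ϖ ^ k • z := by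
      by_contra hcon
      push Not at hcon
      apply hw0
      -- all coordinates are divisible by all powers
      apply b.ext_elem
      intro j
      rw [map_zero, Finsupp.zero_apply]
      have h4 : ∀ z ∈ T, ∃ r : O, b.repr z j = algebraMap O K r := by
        intro z hz
        rw [hb] at hz
        obtain ⟨d, hd⟩ := (Submodule.mem_span_range_iff_exists_fun O).1 hz
        refine ⟨d j, ?_⟩
        rw [← hd, map_sum, Finset.sum_apply', Finset.sum_eq_single j]
        · rw [← algebraMap_smul K (d j), map_smul]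
          simp [Algebra.algebraMap_eq_smul_one]
        · intro i _ hij
          rw [← algebraMap_smul K (d i), map_smul]
          simp [hij]
        · simp
      obtain ⟨r, hr⟩ := h4 y hyT
      have h5 : ∀ k : ℕ, ϖ ^ k ∣ r := by
        intro k
        obtain ⟨z, hz, hyz⟩ := hcon k
        obtain ⟨s, hs⟩ := h4 z hz
        refine ⟨s, ?_⟩
        apply IsFractionRing.injective O K
        rw [← hr, hyz, ← algebraMap_smul K (ϖ ^ k), map_smul, Finsupp.smul_apply, hs, smul_eq_mul,
          map_mul]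
      have h6 : r = 0 := by
        by_contra hr0
        obtain ⟨n, u, hu⟩ := IsDiscreteValuationRing.eq_unit_mul_pow_irreducible hr0 hϖ
        obtain ⟨s, hs⟩ := h5 (n + 1)
        rw [hu, pow_succ, mul_assoc, mul_comm (u : O)] at hs
        have h7 := mul_left_cancel₀ (pow_ne_zero n hϖ.ne_zero) hs
        exact hϖ.not_isUnit (isUnit_of_dvd_unit ⟨s, h7⟩ u.isUnit)
      rw [hr, h6, map_zero]
    classical
    set k := Nat.find hfin with hk
    have hk1 := Nat.find_spec hfin
    rw [← hk] at hk1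
    have hk0 : k ≠ 0 := by
      intro h
      apply hk1
      rw [h]
      exact ⟨y, hyT, by simp⟩
    have hk2 : ∃ z ∈ T, y = ϖ ^ (k - 1) • z := by
      by_contra hcon
      exact (Nat.find_min hfin (m := k - 1) (by omega)) hcon
    obtain ⟨z, hz, hyz⟩ := hk2
    refine ⟨z, hz, ?_, ?_⟩
    · rintro ⟨z', hz', h⟩
      apply hk1
      refine ⟨z', hz', ?_⟩
      rw [hyz, h, smul_smul, ← pow_succ, show k - 1 + 1 = k by omega]
    · apply smul_inj (K := K) hϖ (k - 1)
      rw [← smul_comm_rho, ← hyz, hyc, hyz, smul_neg, smul_comm]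
  obtain ⟨x, hx, hxp, hxc⟩ := key
  refine ⟨c, fun m => ⟨x, hx, ?_⟩⟩
  have h8 : ∀ m : ℕ, (Nm ρ a c ^ m) x = (-2 * ((a c : Oˣ) : O)) ^ m • x := by
    intro m
    induction m with
    | zero => simp
    | succ m ih =>
      rw [pow_succ_mem, ih, map_smul, Nm_apply, hxc, pow_succ, mul_smul]
      congr 1
      rw [mul_smul, neg_smul, ofNat_smul_eq_nsmul, two_nsmul]
      abel
  rw [h8]
  rintro ⟨z, hz, h⟩
  apply hxp
  have hu : IsUnit ((-2 * ((a c : Oˣ) : O)) ^ m) := ((h2.neg).mul (a c).isUnit).pow m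
  obtain ⟨u, hu⟩ := hu
  refine ⟨(↑u⁻¹ : O) • z, T.smul_mem _ hz, ?_⟩
  rw [← hu] at h
  rw [smul_comm, ← h, smul_smul, Units.inv_mul, one_smul]

/-- **Lattices without torsion terms.** -/
theorem torsion_free (h2 : q ≠ 2) (ρ : GQ →* (V →ₗ[K] V))
    (habs : Submodule.span K (Set.range fun σ => ρ σ) = ⊤)
    (T₀ : Submodule O V) (h₀ : StableLattice ρ T₀)
    (c : GQ) (hc : c * c = 1) (hp : ρ c ≠ 1) (hm : ρ c ≠ -1) (t : ℤ) :
    ∃ T : Submodule O V, StableLattice ρ T ∧ NoInvariants q ρ t T ∧ NoDualInvariants q ρ t T := by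
  have hq : IsUnit (2 : O) := by
    have h3 : IsUnit (2 : ℤ_[q]) := by
      have h4 : IsUnit ((2 : ℕ) : ℤ_[q]) := by
        rw [PadicInt.isUnit_iff, PadicInt.norm_natCast_eq_one_iff]
        exact (Nat.coprime_primes (Fact.out) Nat.prime_two).2 h2
      simpa using h4
    have h5 := h3.map (algebraMap ℤ_[q] O)
    rwa [map_ofNat] at h5
  obtain ⟨ϖ, hϖ⟩ := IsDiscreteValuationRing.exists_irreducible O
  let a₁ : GQ →* Oˣ := (zpowGroupHom (-t)).comp (eps q O)
  let a₂ : GQ →* Oˣ := (zpowGroupHom (1 - t)).comp (eps q O)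
  have ha₁ : ∀ σ, a₁ σ = eps q O σ ^ (-t) := fun σ => rfl
  have ha₂ : ∀ σ, a₂ σ = eps q O σ ^ (1 - t) := fun σ => rfl
  have hd : ∃ σ, IsUnit (((a₁ σ : Oˣ) : O) - ((a₂ σ : Oˣ) : O)) := by
    obtain ⟨σ, hσ⟩ := exists_eps_unit q h2 O
    refine ⟨σ, ?_⟩
    have h3 : ((a₁ σ : Oˣ) : O) - ((a₂ σ : Oˣ) : O) =
        ((eps q O σ ^ (-t) : Oˣ) : O) * (1 - ((eps q O σ : Oˣ) : O)) := by
      rw [ha₁, ha₂, sub_eq_add_neg (1 : ℤ) t, zpow_add, zpow_one, Units.val_mul]
      ring
    rw [h3]
    exact (Units.isUnit _).mul hσ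
  obtain ⟨T, hT, hF, hG⟩ := exists_lattice hϖ ρ habs T₀ ⟨h₀.fg, h₀.span, h₀.stab⟩ a₁ a₂
    (not_nilp hϖ hq ρ T₀ h₀ a₁ c hc hp hm) (not_nilp hϖ hq ρ T₀ h₀ a₂ c hc hp hm) hd
  refine ⟨T, ⟨hT.fg, hT.span, hT.stab⟩, ?_, ?_⟩
  · -- no invariants
    intro v hv
    have h4 : ∀ σ, Nm ρ a₁ σ v ∈ T := by
      intro σ
      have h5 := T.smul_mem (((eps q O σ ^ (-t) : Oˣ)) : O) (hv σ)
      rw [smul_sub, smul_smul, ← Units.val_mul, ← zpow_add, neg_add_cancel, zpow_zero,
        Units.val_one, one_smul] at h5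
      rw [Nm_apply, ha₁]
      exact h5
    by_contra hvT
    classical
    have hex := exists_pow_mem (K := K) hϖ T hT.span v
    set k := Nat.find hex with hk
    have hk1 : ϖ ^ k • v ∈ T := Nat.find_spec hex
    have hk0 : k ≠ 0 := by
      intro h
      rw [h] at hk1
      exact hvT (by simpa using hk1)
    apply Nat.find_min hex (m := k - 1) (by omega)
    apply hG
    · rw [smul_smul, ← pow_succ', show k - 1 + 1 = k by omega]
      exact hk1
    · intro σ
      rw [map_smul]
      exact T.smul_mem _ (h4 σ)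
  · -- no dual invariants
    intro f hf
    have h6 : ∀ (σ : GQ) (x y : T), (y : V) = ρ σ x → f y = ((a₂ σ : Oˣ) : O) • f x := by
      intro σ x y hxy
      have h7 := hf σ y x (by
        rw [hxy]
        have : (ρ σ⁻¹ * ρ σ) (x : V) = x := by rw [← map_mul, inv_mul_cancel, map_one]; rfl
        exact this.symm)
      rw [ha₂, h7]
    have htors : ∃ n : ℕ, ∀ x : T, ϖ ^ n • f x = 0 := by
      have hA : ∀ k : K ⧸ LinearMap.range (Algebra.linearMap O K), ∃ n : ℕ, ϖ ^ n • k = 0 := by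
        intro k
        obtain ⟨k, rfl⟩ := Submodule.Quotient.mk_surjective _ k
        obtain ⟨x, y, hy, rfl⟩ := IsFractionRing.div_surjective (A := O) k
        have hy0 : y ≠ 0 := nonZeroDivisors.ne_zero hy
        obtain ⟨n, u, hu⟩ := IsDiscreteValuationRing.eq_unit_mul_pow_irreducible hy0 hϖ
        refine ⟨n, ?_⟩
        rw [← Submodule.Quotient.mk_smul, Submodule.Quotient.mk_eq_zero]
        refine ⟨(↑u⁻¹ : O) * x, ?_⟩
        have hyK : algebraMap O K y ≠ 0 := by
          simpa using (map_ne_zero_iff _ (IsFractionRing.injective O K)).2 hy0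
        rw [Algebra.linearMap_apply, Algebra.smul_def, mul_div_assoc', eq_div_iff hyK,
          ← map_mul, ← map_mul]
        congr 1
        rw [hu]
        have : (↑u⁻¹ : O) * (u : O) = 1 := Units.inv_mul u
        linear_combination (x * ϖ ^ n) * this
      obtain ⟨S, hS⟩ := (Submodule.fg_top T).2 hT.fg
      choose g hg using fun x : T => hA (f x)
      refine ⟨S.sup g, fun x => ?_⟩
      have hx : x ∈ Submodule.span O (S : Set T) := by rw [hS]; trivial
      induction hx using Submodule.span_induction with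
      | mem x hx =>
        obtain ⟨e, he⟩ := Nat.exists_eq_add_of_le (Finset.le_sup (f := g) hx)
        rw [he, pow_add, mul_comm, mul_smul, hg, smul_zero]
      | zero => simp
      | add x y _ _ hx hy => rw [map_add, smul_add, hx, hy, add_zero]
      | smul a x _ hx => rw [map_smul, smul_comm, hx, smul_zero]
    obtain ⟨n, hn⟩ := htors
    have hdiv : ∀ x : T, ∃ z : T, f x = ϖ • f z := by
      let S : Submodule O V := ((LinearMap.range f).map (ϖ • LinearMap.id) |>.comap f).map T.subtype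
      have hle : FF ϖ ρ a₂ T ≤ S := by
        apply FF_le
        · intro x hx
          refine ⟨ϖ • ⟨x, hx⟩, ?_, by simp⟩
          refine ⟨f ⟨x, hx⟩, ⟨_, rfl⟩, ?_⟩
          simp only [LinearMap.smul_apply, LinearMap.id_apply]
          exact (map_smul f ϖ ⟨x, hx⟩).symm
        · intro σ x hx
          refine ⟨⟨Nm ρ a₂ σ x, Nm_mem hT.stab σ hx⟩, ?_, rfl⟩
          have h9 : f ⟨Nm ρ a₂ σ x, Nm_mem hT.stab σ hx⟩ = 0 := by
            have h10 : (⟨Nm ρ a₂ σ x, Nm_mem hT.stab σ hx⟩ : T) =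
                ⟨ρ σ x, hT.stab σ x hx⟩ - ((a₂ σ : Oˣ) : O) • ⟨x, hx⟩ := by
              apply Subtype.ext
              simp [Nm_apply]
            rw [h10, map_sub, map_smul, h6 σ ⟨x, hx⟩ ⟨ρ σ x, hT.stab σ x hx⟩ rfl, sub_self]
          refine ⟨0, Submodule.zero_mem _, ?_⟩
          rw [h9]
          simp
      intro x
      have h11 : (x : V) ∈ S := hle (by rw [hF]; exact x.2)
      obtain ⟨x', hx', hxx⟩ := h11
      have : x' = x := Subtype.ext hxx
      rw [this] at hx'
      obtain ⟨_, ⟨z, rfl⟩, hz⟩ := hx'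
      exact ⟨z, by simpa using hz.symm⟩
    have hdiv' : ∀ (m : ℕ) (x : T), ∃ z : T, f x = ϖ ^ m • f z := by
      intro m
      induction m with
      | zero => intro x; exact ⟨x, by simp⟩
      | succ m ih =>
        intro x
        obtain ⟨z, hz⟩ := ih x
        obtain ⟨z', hz'⟩ := hdiv z
        exact ⟨z', by rw [hz, hz', smul_smul, ← pow_succ]⟩
    ext x
    obtain ⟨z, hz⟩ := hdiv' n x
    rw [hz, hn]
    rfl

end final

end Pool.Agent.TFL
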