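import Mathlib

/-!
# Stable lattices without given subs and quotients (abstract part)

`O` is a discrete valuation ring with fraction field `K`, `V` a finite-dimensional `K`-space with an
absolutely irreducible action of a group `Γ`. `a₁, a₂ : Γ → Oˣ` are two characters which are
different modulo the maximal ideal and which do not exhaust the residual representation.
-/

set_option autoImplicit false

namespace Pool.Agent.TFL

open Submodule

variable {O : Type*} [CommRing O] [IsDomain O] [IsDiscreteValuationRing O]
variable {K : Type*} [Field K] [Algebra O K] [IsFractionRing O K]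
variable {V : Type*} [AddCommGroup V] [Module K V] [Module O V] [IsScalarTower O K V]
variable {Γ : Type*} [Group Γ]

/-- a stable lattice: finitely generated, spanning, stable -/
structure IsStable (K : Type*) [Field K] [Algebra O K] [Module K V] [IsScalarTower O K V]
    (ρ : Γ →* (V →ₗ[K] V)) (T : Submodule O V) : Prop where
  fg : T.FG
  span : Submodule.span K (T : Set V) = ⊤
  stab : ∀ σ, ∀ x ∈ T, ρ σ x ∈ T

/-- `T/ϖT` has no nonzero vector on which the group acts through `a`
(equivalently `V/T` has none) -/
def NoSub (ρ : Γ →* (V →ₗ[K] V)) (a : Γ → O) (T : Submodule O V) : Prop :=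
  ∀ v : V, (∀ σ, ρ σ v - a σ • v ∈ T) → v ∈ T

/-- `T` has no nonzero homomorphism to `K/O` on which the group acts through `a` -/
def NoQuot (ρ : Γ →* (V →ₗ[K] V)) (a : Γ → O) (T : Submodule O V)
    (K' : Type*) [AddCommGroup K'] [Module O K'] : Prop :=
  ∀ f : T →ₗ[O] K', (∀ (σ : Γ) (x y : T), (y : V) = ρ σ x → f y = a σ • f x) → f = 0

/-- clearing denominators in the span -/
theorem exists_pow_smul_mem_span {M : Type*} [AddCommGroup M] [Module K M] [Module O M]
    [IsScalarTower O K M] {ϖ : O} (hϖ : Irreducible ϖ) (s : Set M) {f : M}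
    (hf : f ∈ Submodule.span K s) : ∃ c : ℕ, ϖ ^ c • f ∈ Submodule.span O s := by
  have hmono : ∀ (g : M) (c d : ℕ), c ≤ d → ϖ ^ c • g ∈ Submodule.span O s →
      ϖ ^ d • g ∈ Submodule.span O s := by
    intro g c d h h1
    obtain ⟨e, rfl⟩ := Nat.exists_eq_add_of_le h
    rw [pow_add, mul_comm, mul_smul]
    exact Submodule.smul_mem _ _ h1
  induction hf using Submodule.span_induction with
  | mem x hx => exact ⟨0, by simpa using Submodule.subset_span hx⟩
  | zero => exact ⟨0, by simp⟩
  | add x y _ _ hx hy =>
    obtain ⟨c, hc⟩ := hx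
    obtain ⟨d, hd⟩ := hy
    refine ⟨max c d, ?_⟩
    rw [smul_add]
    exact Submodule.add_mem _ (hmono x c _ (le_max_left _ _) hc)
      (hmono y d _ (le_max_right _ _) hd)
  | smul k x _ hx =>
    obtain ⟨c, hc⟩ := hx
    obtain ⟨a, b, hb, rfl⟩ := IsFractionRing.div_surjective (A := O) k
    have hb0 : b ≠ 0 := nonZeroDivisors.ne_zero hb
    obtain ⟨n, u, hu⟩ := IsDiscreteValuationRing.eq_unit_mul_pow_irreducible hb0 hϖ
    refine ⟨c + n, ?_⟩
    have h1 : ϖ ^ (c + n) • ((algebraMap O K a / algebraMap O K b) • x) =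
        (a * (↑u⁻¹ : O)) • (ϖ ^ c • x) := by
      rw [← algebraMap_smul K (ϖ ^ (c + n)), ← algebraMap_smul K (a * (↑u⁻¹ : O)),
        ← algebraMap_smul K (ϖ ^ c), smul_smul, smul_smul]
      congr 1
      have hbK : algebraMap O K b ≠ 0 := by
        simpa using (map_ne_zero_iff _ (IsFractionRing.injective O K)).2 hb0
      rw [mul_div_assoc', div_eq_iff hbK, ← map_mul, ← map_mul, ← map_mul]
      congr 1
      rw [hu, pow_add]
      have : (u : O) * (↑u⁻¹ : O) = 1 := u.mul_inv
      linear_combination (-(a * ϖ ^ c * ϖ ^ n)) * this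
    rw [h1]
    exact Submodule.smul_mem _ _ hc

theorem exists_pow_forall {ι : Type*} [Finite ι] {M : Type*} [AddCommGroup M] [Module O M]
    {ϖ : O} (N : Submodule O M) (g : ι → M) (h : ∀ i, ∃ c : ℕ, ϖ ^ c • g i ∈ N) :
    ∃ c : ℕ, ∀ i, ϖ ^ c • g i ∈ N := by
  classical
  cases nonempty_fintype ι
  choose c hc using h
  refine ⟨Finset.univ.sup c, fun i => ?_⟩
  obtain ⟨e, he⟩ := Nat.exists_eq_add_of_le (Finset.le_sup (f := c) (Finset.mem_univ i))
  rw [he, pow_add, mul_comm, mul_smul]
  exact Submodule.smul_mem _ _ (hc i)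

/-- a lattice has an `O`-basis which is a `K`-basis of `V` -/
theorem exists_basis (T : Submodule O V) (hfg : T.FG)
    (hspan : Submodule.span K (T : Set V) = ⊤) :
    ∃ (n : ℕ) (b : Module.Basis (Fin n) K V), T = Submodule.span O (Set.range b) := by
  have : Module.Finite O T := Module.Finite.iff_fg.2 hfg
  have htf : Module.IsTorsionFree O V := by
    have : FaithfulSMul O K := inferInstance
    exact Module.IsTorsionFree.trans_faithfulSMul O K V
  have hfree : Module.Free O T := inferInstance
  let b := Module.finBasis O T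
  have hli : LinearIndependent K (fun i => ((b i : T) : V)) := by
    have h1 : LinearIndependent O (fun i => ((b i : T) : V)) :=
      b.linearIndependent.map' T.subtype (by simp)
    exact (LinearIndependent.iff_fractionRing O K).1 h1
  have hT : T = Submodule.span O (Set.range (fun i => ((b i : T) : V))) := by
    have h2 := b.span_eq
    have h3 := congrArg (Submodule.map T.subtype) h2
    rw [Submodule.map_span, Submodule.map_top, Submodule.range_subtype, ← Set.range_comp] at h3
    exact h3.symm
  have hsp : ⊤ ≤ Submodule.span K (Set.range (fun i => ((b i : T) : V))) := by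
    rw [← hspan, Submodule.span_le]
    intro x hx
    rw [hT] at hx
    exact Submodule.span_subset_span O K _ hx
  refine ⟨_, Module.Basis.mk hli hsp, hT.trans ?_⟩
  congr 1
  ext x
  simp

/-- In an absolutely irreducible representation every stable submodule which contains a primitive
vector of the lattice `T` contains `ϖ^c T`, with `c` independent of the submodule. -/
theorem exists_uniform {ϖ : O} (hϖ : Irreducible ϖ) (ρ : Γ →* (V →ₗ[K] V))
    (habs : Submodule.span K (Set.range fun σ => ρ σ) = ⊤) (T : Submodule O V) (hfg : T.FG)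
    (hspan : Submodule.span K (T : Set V) = ⊤) :
    ∃ c : ℕ, ∀ T' : Submodule O V, (∀ σ, ∀ x ∈ T', ρ σ x ∈ T') →
      ∀ x ∈ T', x ∈ T → (¬ ∃ z ∈ T, x = ϖ • z) → ∀ y ∈ T, ϖ ^ c • y ∈ T' := by
  classical
  obtain ⟨n, b, hb⟩ := exists_basis (K := K) T hfg hspan
  let E : Fin n × Fin n → (V →ₗ[K] V) := fun p => (b.coord p.2).smulRight (b p.1)
  obtain ⟨c, hc⟩ := exists_pow_forall (ϖ := ϖ) (Submodule.span O (Set.range fun σ => ρ σ)) E
    (fun p => exists_pow_smul_mem_span (K := K) hϖ _ (by rw [habs]; trivial))
  refine ⟨c, ?_⟩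
  intro T' hT' x hx hxT hprim y hy
  have h1 : ∀ f ∈ Submodule.span O (Set.range fun σ => ρ σ), f x ∈ T' := by
    intro f hf
    induction hf using Submodule.span_induction with
    | mem f hf => obtain ⟨σ, rfl⟩ := hf; exact hT' σ x hx
    | zero => simp
    | add f g _ _ hf hg => simpa using T'.add_mem hf hg
    | smul a f _ hf => simpa using T'.smul_mem a hf
  rw [hb] at hxT
  obtain ⟨d, hd⟩ := (Submodule.mem_span_range_iff_exists_fun O).1 hxT
  obtain ⟨j, hj⟩ : ∃ j, IsUnit (d j) := by
    by_contra hcon
    push Not at hcon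
    apply hprim
    have h2 : ∀ j, ∃ e, d j = ϖ * e := by
      intro j
      have h3 : d j ∈ IsLocalRing.maximalIdeal O := hcon j
      rw [hϖ.maximalIdeal_eq, Ideal.mem_span_singleton] at h3
      exact h3
    choose e he using h2
    refine ⟨∑ i, e i • b i, ?_, ?_⟩
    · rw [hb]
      exact Submodule.sum_mem _ (fun i _ => Submodule.smul_mem _ _ (Submodule.subset_span ⟨i, rfl⟩))
    · rw [← hd, Finset.smul_sum]
      apply Finset.sum_congr rfl
      intro i _
      rw [he i, mul_smul]
  have hco : b.coord j x = algebraMap O K (d j) := by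
    rw [← hd, map_sum, Finset.sum_eq_single j]
    · rw [← algebraMap_smul K (d j), map_smul]
      simp
    · intro i _ hij
      rw [← algebraMap_smul K (d i), map_smul]
      simp [hij]
    · simp
  have h4 : ∀ i, ϖ ^ c • b i ∈ T' := by
    intro i
    have h5 := h1 _ (hc (i, j))
    have h6 : (ϖ ^ c • E (i, j)) x = d j • (ϖ ^ c • b i) := by
      simp only [E, LinearMap.smul_apply, LinearMap.smulRight_apply, hco]
      rw [algebraMap_smul, smul_comm]
    rw [h6] at h5
    obtain ⟨u, hu⟩ := hj
    have h7 := T'.smul_mem (↑u⁻¹ : O) h5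
    rwa [← hu, smul_smul, Units.inv_mul, one_smul] at h7
  rw [hb] at hy
  induction hy using Submodule.span_induction with
  | mem y hy => obtain ⟨i, rfl⟩ := hy; exact h4 i
  | zero => simp
  | add y z _ _ hy hz => rw [smul_add]; exact T'.add_mem hy hz
  | smul a y _ hy => rw [smul_comm]; exact T'.smul_mem a hy

/-- between `ϖ^c T₀` and `T₀` nonempty sets of submodules have minimal elements -/
theorem exists_minimal {ϖ : O} (hϖ : Irreducible ϖ) (T₀ : Submodule O V) (hfg : T₀.FG)
    (hspan : Submodule.span K (T₀ : Set V) = ⊤) (c : ℕ) (S : Set (Submodule O V))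
    (hne : S.Nonempty) (hS : ∀ T ∈ S, T ≤ T₀ ∧ ∀ y ∈ T₀, ϖ ^ c • y ∈ T) :
    ∃ T ∈ S, ∀ T' ∈ S, T' ≤ T → T' = T := by
  classical
  obtain ⟨n, b, hb⟩ := exists_basis (K := K) T₀ hfg hspan
  let I : Ideal O := Ideal.span {ϖ ^ c}
  have hart : IsArtinian O (O ⧸ I) := by
    have h1 : IsArtinianRing (O ⧸ I) := by
      rcases Nat.eq_zero_or_pos c with rfl | hc
      · have : Subsingleton (O ⧸ I) := by
          rw [Ideal.Quotient.subsingleton_iff]
          simp [I]
        infer_instance
      · have hI : I ≠ ⊤ := by
          rw [Ne, Ideal.span_singleton_eq_top]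
          intro h
          exact hϖ.not_isUnit (isUnit_of_dvd_unit (dvd_pow_self ϖ hc.ne') h)
        have : Nontrivial (O ⧸ I) := Ideal.Quotient.nontrivial_iff.2 hI
        have : IsLocalRing (O ⧸ I) :=
          IsLocalRing.of_surjective' (Ideal.Quotient.mk I) Ideal.Quotient.mk_surjective
        rw [isArtinianRing_iff_isNilpotent_maximalIdeal]
        refine ⟨c, ?_⟩
        have h2 : IsLocalRing.maximalIdeal (O ⧸ I) =
            (IsLocalRing.maximalIdeal O).map (Ideal.Quotient.mk I) := by
          apply le_antisymm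
          · intro x hx
            obtain ⟨y, rfl⟩ := Ideal.Quotient.mk_surjective x
            apply Ideal.mem_map_of_mem
            intro hy
            exact hx (hy.map _)
          · rw [Ideal.map_le_iff_le_comap]
            intro y hy
            rw [Ideal.mem_comap]
            intro hu
            have : IsLocalHom (Ideal.Quotient.mk I) :=
              IsLocalHom.of_surjective _ Ideal.Quotient.mk_surjective
            exact hy (isUnit_of_map_unit (Ideal.Quotient.mk I) y hu)
        rw [h2, ← Ideal.map_pow, hϖ.maximalIdeal_eq, Ideal.span_singleton_pow, Ideal.map_span,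
          Set.image_singleton]
        have h3 : Ideal.Quotient.mk I (ϖ ^ c) = 0 := by
          rw [Ideal.Quotient.eq_zero_iff_mem]
          exact Ideal.mem_span_singleton_self _
        rw [h3]
        simp
    exact isArtinian_of_surjective_algebraMap (R := O ⧸ I) Ideal.Quotient.mk_surjective
  let g : (Fin n → O) →ₗ[O] V := Fintype.linearCombination O (fun i => b i)
  let h : (Fin n → O) →ₗ[O] (Fin n → O ⧸ I) :=
    LinearMap.pi (fun i => (Submodule.mkQ I).comp (LinearMap.proj i))
  have hwf := (isArtinian_iff O (Fin n → O ⧸ I)).1 inferInstance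
  let f : Submodule O V → Submodule O (Fin n → O ⧸ I) := fun T => (T.comap g).map h
  obtain ⟨T, hT, hmin⟩ := (InvImage.wf f hwf).has_min S hne
  refine ⟨T, hT, ?_⟩
  intro T' hT' hle
  by_contra hne'
  apply hmin T' hT'
  have hmono : f T' ≤ f T := Submodule.map_mono (Submodule.comap_mono hle)
  refine lt_of_le_of_ne hmono ?_
  intro heq
  apply hne'
  apply le_antisymm hle
  intro x hx
  have hx0 := (hS T hT).1 hx
  rw [hb] at hx0
  obtain ⟨d, hd⟩ := (Submodule.mem_span_range_iff_exists_fun O).1 hx0
  have hgd : g d = x := by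
    simp only [g, Fintype.linearCombination_apply]
    exact hd
  have h4 : h d ∈ f T := ⟨d, by simpa [hgd] using hx, rfl⟩
  rw [← heq] at h4
  obtain ⟨e, he, hed⟩ := h4
  have he' : g e ∈ T' := he
  have h5 : ∀ i, ∃ r, d i - e i = ϖ ^ c * r := by
    intro i
    have h6 := congrFun hed i
    simp only [h, LinearMap.pi_apply, LinearMap.comp_apply, LinearMap.proj_apply,
      Submodule.mkQ_apply] at h6
    have h7 := (Submodule.Quotient.eq I).1 h6.symm
    exact Ideal.mem_span_singleton.1 h7
  choose r hr using h5
  have h8 : x = g e + ϖ ^ c • g r := by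
    rw [← hgd]
    have : d = e + ϖ ^ c • r := by
      funext i
      have := hr i
      simp only [Pi.add_apply, Pi.smul_apply, smul_eq_mul]
      linear_combination this
    rw [this, map_add, map_smul]
  rw [h8]
  refine T'.add_mem he' ((hS T' hT').2 _ ?_)
  rw [hb]
  simp only [g, Fintype.linearCombination_apply]
  exact Submodule.sum_mem _ (fun i _ => Submodule.smul_mem _ _ (Submodule.subset_span ⟨i, rfl⟩))

end Pool.Agent.TFL
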