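import Pool.Agent.TFL.Lattice

/-!
# Existence of a stable lattice with neither a given sub nor a given quotient
-/

set_option autoImplicit false

namespace Pool.Agent.TFL

open Submodule

variable {O : Type*} [CommRing O] [IsDomain O] [IsDiscreteValuationRing O]
variable {K : Type*} [Field K] [Algebra O K] [IsFractionRing O K]
variable {V : Type*} [AddCommGroup V] [Module K V] [Module O V] [IsScalarTower O K V]
variable {Γ : Type*} [Group Γ]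

/-- the operator `ρ(σ) - a(σ)` -/
def Nm (ρ : Γ →* (V →ₗ[K] V)) (a : Γ →* Oˣ) (σ : Γ) : V →ₗ[O] V :=
  (ρ σ).restrictScalars O - ((a σ : Oˣ) : O) • LinearMap.id

theorem Nm_apply (ρ : Γ →* (V →ₗ[K] V)) (a : Γ →* Oˣ) (σ : Γ) (x : V) :
    Nm ρ a σ x = ρ σ x - ((a σ : Oˣ) : O) • x := by
  simp [Nm]

theorem smul_comm_rho (ρ : Γ →* (V →ₗ[K] V)) (σ : Γ) (c : O) (x : V) :
    ρ σ (c • x) = c • ρ σ x := by
  rw [← algebraMap_smul K c x, map_smul, algebraMap_smul]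

theorem Nm_comm (ρ : Γ →* (V →ₗ[K] V)) (a : Γ →* Oˣ) (σ τ : Γ) (x : V) :
    ρ τ (Nm ρ a σ x) = Nm ρ a (τ * σ * τ⁻¹) (ρ τ x) := by
  rw [Nm_apply, Nm_apply, map_sub, smul_comm_rho]
  have h1 : a (τ * σ * τ⁻¹) = a σ := by
    rw [map_mul, map_mul, map_inv, mul_comm (a τ), mul_assoc, mul_inv_cancel, mul_one]
  rw [h1]
  congr 1
  have h2 : ρ (τ * σ * τ⁻¹) (ρ τ x) = ρ (τ * σ * τ⁻¹ * τ) x := by
    rw [map_mul ρ (τ * σ * τ⁻¹) τ]
    rfl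
  rw [h2, inv_mul_cancel_right, map_mul]
  rfl

theorem Nm_comm' (ρ : Γ →* (V →ₗ[K] V)) (a : Γ →* Oˣ) (σ τ : Γ) (x : V) :
    Nm ρ a σ (ρ τ x) = ρ τ (Nm ρ a (τ⁻¹ * σ * τ) x) := by
  rw [Nm_comm]
  congr 1
  group

/-- the kernel of the largest quotient on which the group acts through `a` modulo `ϖ` -/
def FF (ϖ : O) (ρ : Γ →* (V →ₗ[K] V)) (a : Γ →* Oˣ) (T : Submodule O V) : Submodule O V :=
  T.map (ϖ • (LinearMap.id : V →ₗ[O] V)) ⊔ ⨆ σ, T.map (Nm ρ a σ)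

/-- the preimage of the largest sub of `V/T` killed by `ϖ` with action through `a` -/
def GG (ϖ : O) (ρ : Γ →* (V →ₗ[K] V)) (a : Γ →* Oˣ) (T : Submodule O V) : Submodule O V :=
  T.comap (ϖ • (LinearMap.id : V →ₗ[O] V)) ⊓ ⨅ σ, T.comap (Nm ρ a σ)

theorem mem_GG {ϖ : O} {ρ : Γ →* (V →ₗ[K] V)} {a : Γ →* Oˣ} {T : Submodule O V} {x : V} :
    x ∈ GG ϖ ρ a T ↔ ϖ • x ∈ T ∧ ∀ σ, Nm ρ a σ x ∈ T := by
  simp [GG]

theorem Nm_mem {ρ : Γ →* (V →ₗ[K] V)} {a : Γ →* Oˣ} {T : Submodule O V}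
    (hT : ∀ σ, ∀ x ∈ T, ρ σ x ∈ T) (σ : Γ) {x : V} (hx : x ∈ T) : Nm ρ a σ x ∈ T := by
  rw [Nm_apply]
  exact T.sub_mem (hT σ x hx) (T.smul_mem _ hx)

theorem smul_mem_FF {ϖ : O} {ρ : Γ →* (V →ₗ[K] V)} {a : Γ →* Oˣ} {T : Submodule O V} {x : V}
    (hx : x ∈ T) : ϖ • x ∈ FF ϖ ρ a T :=
  (le_sup_left : _ ≤ FF ϖ ρ a T) ⟨x, hx, by simp⟩

theorem Nm_mem_FF {ϖ : O} {ρ : Γ →* (V →ₗ[K] V)} {a : Γ →* Oˣ} {T : Submodule O V} {x : V}
    (σ : Γ) (hx : x ∈ T) : Nm ρ a σ x ∈ FF ϖ ρ a T :=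
  (le_sup_right : _ ≤ FF ϖ ρ a T) ((le_iSup (fun σ => T.map (Nm ρ a σ)) σ) ⟨x, hx, rfl⟩)

theorem FF_le {ϖ : O} {ρ : Γ →* (V →ₗ[K] V)} {a : Γ →* Oˣ} {T S : Submodule O V}
    (h1 : ∀ x ∈ T, ϖ • x ∈ S) (h2 : ∀ σ, ∀ x ∈ T, Nm ρ a σ x ∈ S) : FF ϖ ρ a T ≤ S := by
  refine sup_le ?_ (iSup_le fun σ => ?_)
  · rintro _ ⟨x, hx, rfl⟩
    simpa using h1 x hx
  · rintro _ ⟨x, hx, rfl⟩
    exact h2 σ x hx

theorem FF_mono {ϖ : O} {ρ : Γ →* (V →ₗ[K] V)} {a : Γ →* Oˣ} {T S : Submodule O V}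
    (h : T ≤ S) : FF ϖ ρ a T ≤ FF ϖ ρ a S :=
  FF_le (fun _ hx => smul_mem_FF (h hx)) (fun σ _ hx => Nm_mem_FF σ (h hx))

theorem FF_le_self {ϖ : O} {ρ : Γ →* (V →ₗ[K] V)} {a : Γ →* Oˣ} {T : Submodule O V}
    (hT : ∀ σ, ∀ x ∈ T, ρ σ x ∈ T) : FF ϖ ρ a T ≤ T :=
  FF_le (fun _ hx => T.smul_mem _ hx) (fun σ _ hx => Nm_mem hT σ hx)

theorem FF_stab {ϖ : O} {ρ : Γ →* (V →ₗ[K] V)} {a : Γ →* Oˣ} {T : Submodule O V}
    (hT : ∀ σ, ∀ x ∈ T, ρ σ x ∈ T) : ∀ σ, ∀ x ∈ FF ϖ ρ a T, ρ σ x ∈ FF ϖ ρ a T := by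
  intro τ
  have h : FF ϖ ρ a T ≤ (FF ϖ ρ a T).comap ((ρ τ).restrictScalars O) := by
    apply FF_le
    · intro x hx
      simp only [Submodule.mem_comap, LinearMap.coe_restrictScalars]
      rw [smul_comm_rho]
      exact smul_mem_FF (hT τ x hx)
    · intro σ x hx
      simp only [Submodule.mem_comap, LinearMap.coe_restrictScalars]
      rw [Nm_comm]
      exact Nm_mem_FF _ (hT τ x hx)
  intro x hx
  exact h hx

theorem GG_stab {ϖ : O} {ρ : Γ →* (V →ₗ[K] V)} {a : Γ →* Oˣ} {T : Submodule O V}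
    (hT : ∀ σ, ∀ x ∈ T, ρ σ x ∈ T) : ∀ σ, ∀ x ∈ GG ϖ ρ a T, ρ σ x ∈ GG ϖ ρ a T := by
  intro τ x hx
  rw [mem_GG] at hx ⊢
  refine ⟨?_, fun σ => ?_⟩
  · rw [← smul_comm_rho]; exact hT τ _ hx.1
  · rw [Nm_comm']; exact hT τ _ (hx.2 _)

theorem le_GG {ϖ : O} {ρ : Γ →* (V →ₗ[K] V)} {a : Γ →* Oˣ} {T : Submodule O V}
    (hT : ∀ σ, ∀ x ∈ T, ρ σ x ∈ T) : T ≤ GG ϖ ρ a T := by
  intro x hx
  rw [mem_GG]
  exact ⟨T.smul_mem _ hx, fun σ => Nm_mem hT σ hx⟩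

theorem pow_succ_mem {N : V →ₗ[O] V} {m : ℕ} {x : V} :
    (N ^ (m + 1)) x = N ((N ^ m) x) := by
  rw [pow_succ', Module.End.mul_apply]

theorem pow_succ_mem' {N : V →ₗ[O] V} {m : ℕ} {x : V} :
    (N ^ (m + 1)) x = (N ^ m) (N x) := by
  rw [pow_succ, Module.End.mul_apply]

/-- every vector gets into a lattice after multiplication by a power of the uniformiser -/
theorem exists_pow_mem {ϖ : O} (hϖ : Irreducible ϖ) (T : Submodule O V)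
    (hspan : Submodule.span K (T : Set V) = ⊤) (v : V) : ∃ n : ℕ, ϖ ^ n • v ∈ T := by
  obtain ⟨c, hc⟩ := exists_pow_smul_mem_span (K := K) hϖ (T : Set V) (f := v)
    (by rw [hspan]; trivial)
  exact ⟨c, by simpa using hc⟩

include K in
theorem smul_inj {ϖ : O} (hϖ : Irreducible ϖ) (c : ℕ) {x y : V}
    (h : ϖ ^ c • x = ϖ ^ c • y) : x = y := by
  have h0 : algebraMap O K (ϖ ^ c) ≠ 0 := by
    rw [Ne, map_eq_zero_iff _ (IsFractionRing.injective O K)]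
    exact pow_ne_zero _ hϖ.ne_zero
  rw [← algebraMap_smul K (ϖ ^ c) x, ← algebraMap_smul K (ϖ ^ c) y] at h
  exact smul_right_injective V h0 h

include K in
/-- a nonempty set of submodules `T'` with `ϖ^c T' ⊆ T` has maximal elements -/
theorem exists_maximal {ϖ : O} (hϖ : Irreducible ϖ) (T : Submodule O V) (hfg : T.FG) (c : ℕ)
    (S : Set (Submodule O V)) (hne : S.Nonempty)
    (hS : ∀ T' ∈ S, ∀ y ∈ T', ϖ ^ c • y ∈ T) :
    ∃ T' ∈ S, ∀ T'' ∈ S, T' ≤ T'' → T'' = T' := by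
  have : Module.Finite O T := Module.Finite.iff_fg.2 hfg
  have hnoeth : IsNoetherian O T := inferInstance
  have hwf : WellFoundedGT (Submodule O T) := inferInstance
  let f : Submodule O V → Submodule O T := fun T' =>
    (T'.map ((ϖ ^ c) • (LinearMap.id : V →ₗ[O] V))).comap T.subtype
  obtain ⟨T', hT', hmax⟩ := (InvImage.wf f hwf.wf).has_min S hne
  refine ⟨T', hT', ?_⟩
  intro T'' hT'' hle
  by_contra hne'
  apply hmax T'' hT''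
  have hmono : f T' ≤ f T'' := Submodule.comap_mono (Submodule.map_mono hle)
  refine lt_of_le_of_ne hmono ?_
  intro heq
  apply hne'
  apply le_antisymm _ hle
  intro x hx
  have h1 : (⟨ϖ ^ c • x, hS T'' hT'' x hx⟩ : T) ∈ f T'' := ⟨x, hx, by simp⟩
  rw [← heq] at h1
  obtain ⟨y, hy, hyx⟩ := h1
  have h2 : ϖ ^ c • y = ϖ ^ c • x := by simpa using hyx
  rw [← smul_inj (K := K) hϖ c h2]
  exact hy

include K in
/-- submodules with bounded denominators are finitely generated -/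
theorem fg_of_bounded {ϖ : O} (hϖ : Irreducible ϖ) (T T' : Submodule O V) (hfg : T.FG) (c : ℕ)
    (h : ∀ y ∈ T', ϖ ^ c • y ∈ T) : T'.FG := by
  have : Module.Finite O T := Module.Finite.iff_fg.2 hfg
  have hnoeth : IsNoetherian O T := inferInstance
  let f : T' →ₗ[O] T :=
    { toFun := fun y => ⟨ϖ ^ c • (y : V), h y y.2⟩
      map_add' := fun x y => by ext; simp
      map_smul' := fun a x => by
        apply Subtype.ext
        change ϖ ^ c • (a • (x : V)) = a • (ϖ ^ c • (x : V))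
        rw [smul_comm] }
  have hf : Function.Injective f := by
    intro x y hxy
    apply Subtype.ext
    exact smul_inj (K := K) hϖ c (congrArg Subtype.val hxy)
  have : IsNoetherian O T' := isNoetherian_of_injective f hf
  exact Module.Finite.iff_fg.1 inferInstance

/-- Abstract main theorem. -/
theorem exists_lattice {ϖ : O} (hϖ : Irreducible ϖ) (ρ : Γ →* (V →ₗ[K] V))
    (habs : Submodule.span K (Set.range fun σ => ρ σ) = ⊤) (T₀ : Submodule O V)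
    (h₀ : IsStable K ρ T₀) (a₁ a₂ : Γ →* Oˣ)
    (hn₁ : ∃ σ, ∀ m : ℕ, ∃ x ∈ T₀, ¬ ∃ z ∈ T₀, (Nm ρ a₁ σ ^ m) x = ϖ • z)
    (hn₂ : ∃ σ, ∀ m : ℕ, ∃ x ∈ T₀, ¬ ∃ z ∈ T₀, (Nm ρ a₂ σ ^ m) x = ϖ • z)
    (hd : ∃ σ, IsUnit (((a₁ σ : Oˣ) : O) - ((a₂ σ : Oˣ) : O))) :
    ∃ T : Submodule O V, IsStable K ρ T ∧ FF ϖ ρ a₂ T = T ∧
      ∀ v, ϖ • v ∈ T → (∀ σ, Nm ρ a₁ σ v ∈ T) → v ∈ T := by
  obtain ⟨c, hc⟩ := exists_uniform hϖ ρ habs T₀ h₀.fg h₀.span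
  -- step 1
  let S₁ : Set (Submodule O V) := {T | (∀ σ, ∀ x ∈ T, ρ σ x ∈ T) ∧ T ≤ T₀ ∧
    (∀ y ∈ T₀, ϖ ^ c • y ∈ T) ∧ (∀ σ, ∃ m : ℕ, ∀ x ∈ T₀, (Nm ρ a₂ σ ^ m) x ∈ T) ∧
    ∃ x ∈ T, ¬ ∃ z ∈ T₀, x = ϖ • z}
  have hS₁ : S₁.Nonempty := by
    refine ⟨T₀, h₀.stab, le_rfl, fun y hy => T₀.smul_mem _ hy, fun σ => ⟨0, fun x hx => ?_⟩, ?_⟩
    · simpa using hx
    · obtain ⟨σ, hσ⟩ := hn₂
      obtain ⟨x, hx, hx'⟩ := hσ 0
      exact ⟨x, hx, by simpa using hx'⟩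
  obtain ⟨T₁, ⟨s1, s2, s3, s4, s5⟩, hmin⟩ := exists_minimal (K := K) hϖ T₀ h₀.fg h₀.span c S₁ hS₁
    (fun T hT => ⟨hT.2.1, hT.2.2.1⟩)
  have hFF : FF ϖ ρ a₂ T₁ = T₁ := by
    by_cases hp : ∃ x ∈ FF ϖ ρ a₂ T₁, ¬ ∃ z ∈ T₀, x = ϖ • z
    · apply hmin _ _ (FF_le_self s1)
      obtain ⟨x, hx, hx'⟩ := hp
      refine ⟨FF_stab s1, (FF_le_self s1).trans s2, ?_, ?_, ⟨x, hx, hx'⟩⟩
      · exact hc _ (FF_stab s1) x hx (s2 (FF_le_self s1 hx)) hx'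
      · intro σ
        obtain ⟨m, hm⟩ := s4 σ
        refine ⟨m + 1, fun x hx => ?_⟩
        rw [pow_succ_mem]
        exact Nm_mem_FF σ (hm x hx)
    · exfalso
      push Not at hp
      obtain ⟨σ, hσ⟩ := hn₂
      obtain ⟨m, hm⟩ := s4 σ
      obtain ⟨x, hx, hx'⟩ := hσ (m + 1)
      apply hx'
      rw [pow_succ_mem]
      exact hp _ (Nm_mem_FF σ (hm x hx))
  have hT₁fg : T₁.FG := fg_of_bounded (K := K) hϖ T₀ T₁ h₀.fg 0 (fun y hy => by simpa using s2 hy)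
  have hT₁span : Submodule.span K (T₁ : Set V) = ⊤ := by
    rw [eq_top_iff, ← h₀.span, Submodule.span_le]
    intro y hy
    have h1 : ϖ ^ c • y ∈ Submodule.span K (T₁ : Set V) := Submodule.subset_span (s3 y hy)
    have h0 : algebraMap O K (ϖ ^ c) ≠ 0 := by
      rw [Ne, map_eq_zero_iff _ (IsFractionRing.injective O K)]
      exact pow_ne_zero _ hϖ.ne_zero
    have h2 := Submodule.smul_mem (Submodule.span K (T₁ : Set V)) (algebraMap O K (ϖ ^ c))⁻¹ h1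
    rwa [← algebraMap_smul K (ϖ ^ c) y, smul_smul, inv_mul_cancel₀ h0, one_smul] at h2
  obtain ⟨c₁, hc₁⟩ := exists_uniform hϖ ρ habs T₁ hT₁fg hT₁span
  -- step 2
  let S₂ : Set (Submodule O V) := {T | (∀ σ, ∀ x ∈ T, ρ σ x ∈ T) ∧ T₁ ≤ T ∧
    (∀ y ∈ T, ϖ ^ c₁ • y ∈ T₁) ∧ (∀ σ, ∃ m : ℕ, ∀ x ∈ T, (Nm ρ a₁ σ ^ m) x ∈ T₁) ∧
    FF ϖ ρ a₂ T = T ∧ ∃ y ∈ T₁, ¬ ∃ z ∈ T, y = ϖ • z}
  have hS₂ : S₂.Nonempty := by
    refine ⟨T₁, s1, le_rfl, fun y hy => T₁.smul_mem _ hy, fun σ => ⟨0, fun x hx => ?_⟩, hFF, ?_⟩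
    · simpa using hx
    · obtain ⟨x, hx, hx'⟩ := s5
      exact ⟨x, hx, fun ⟨z, hz, h⟩ => hx' ⟨z, s2 hz, h⟩⟩
  obtain ⟨T₂, ⟨t1, t2, t3, t4, t5, t6⟩, hmax⟩ := exists_maximal (K := K) hϖ T₁ hT₁fg c₁ S₂ hS₂
    (fun T hT => hT.2.2.1)
  have hGnil : ∀ σ, ∃ m : ℕ, ∀ x ∈ GG ϖ ρ a₁ T₂, (Nm ρ a₁ σ ^ m) x ∈ T₁ := by
    intro σ
    obtain ⟨m, hm⟩ := t4 σ
    refine ⟨m + 1, fun x hx => ?_⟩
    rw [pow_succ_mem']
    exact hm _ ((mem_GG.1 hx).2 σ)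
  have hGG : GG ϖ ρ a₁ T₂ = T₂ := by
    by_cases hp : ∃ y ∈ T₁, ¬ ∃ z ∈ GG ϖ ρ a₁ T₂, y = ϖ • z
    · apply hmax _ _ (le_GG t1)
      refine ⟨GG_stab t1, t2.trans (le_GG t1), ?_, hGnil, ?_, hp⟩
      · intro y hy
        by_contra hy'
        obtain ⟨w, hw, hw'⟩ := hp
        apply hw'
        classical
        have hex := exists_pow_mem (K := K) hϖ T₁ hT₁span y
        set k := Nat.find hex with hk
        have hk1 : ϖ ^ k • y ∈ T₁ := Nat.find_spec hex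
        have hk2 : ∀ j < k, ϖ ^ j • y ∉ T₁ := fun j hj => Nat.find_min hex hj
        have hck : c₁ < k := by
          by_contra hcon
          apply hy'
          obtain ⟨e, he⟩ := Nat.exists_eq_add_of_le (Nat.le_of_not_lt hcon)
          rw [he, pow_add, mul_comm, mul_smul]
          exact T₁.smul_mem _ hk1
        obtain ⟨e, he⟩ := Nat.exists_eq_add_of_lt hck
        have h3 := hc₁ ((GG ϖ ρ a₁ T₂).map ((ϖ ^ k) • (LinearMap.id : V →ₗ[O] V))) ?_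
          (ϖ ^ k • y) ⟨y, hy, by simp⟩ hk1 ?_ w hw
        · obtain ⟨v, hv, hv'⟩ := h3
          refine ⟨ϖ ^ e • v, (GG ϖ ρ a₁ T₂).smul_mem _ hv, ?_⟩
          have h4 : ϖ ^ c₁ • w = ϖ ^ c₁ • (ϖ • (ϖ ^ e • v)) := by
            rw [← hv']
            simp only [LinearMap.smul_apply, LinearMap.id_apply]
            rw [he, smul_smul, smul_smul]
            congr 1
            ring
          exact smul_inj (K := K) hϖ c₁ h4
        · rintro σ _ ⟨v, hv, rfl⟩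
          refine ⟨ρ σ v, GG_stab t1 σ v hv, ?_⟩
          simp only [LinearMap.smul_apply, LinearMap.id_apply]
          rw [smul_comm_rho]
        · rintro ⟨z, hz, hz'⟩
          apply hk2 (k - 1) (by omega)
          have h5 : ϖ ^ 1 • (ϖ ^ (k - 1) • y) = ϖ ^ 1 • z := by
            rw [smul_smul, ← pow_add, show 1 + (k - 1) = k by omega, hz', pow_one]
          rw [smul_inj (K := K) hϖ 1 h5]
          exact hz
      · apply le_antisymm (FF_le_self (GG_stab t1))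
        intro v hv
        obtain ⟨σ₀, u, hu⟩ := hd
        have h6 : Nm ρ a₁ σ₀ v ∈ FF ϖ ρ a₂ (GG ϖ ρ a₁ T₂) := by
          have := (mem_GG.1 hv).2 σ₀
          rw [← t5] at this
          exact FF_mono (le_GG t1) this
        have h7 : Nm ρ a₂ σ₀ v ∈ FF ϖ ρ a₂ (GG ϖ ρ a₁ T₂) := Nm_mem_FF σ₀ hv
        have h8 := Submodule.sub_mem _ h7 h6
        rw [Nm_apply, Nm_apply, sub_sub_sub_cancel_left, ← sub_smul, ← hu] at h8
        have h9 := Submodule.smul_mem _ (↑u⁻¹ : O) h8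
        rwa [smul_smul, Units.inv_mul, one_smul] at h9
    · exfalso
      push Not at hp
      obtain ⟨σ, hσ⟩ := hn₁
      obtain ⟨m, hm⟩ := hGnil σ
      set N := Nm ρ a₁ σ with hN
      have h10 : ∀ w ∈ T₁, ∃ z ∈ T₁, (N ^ m) w = ϖ • z := by
        intro w hw
        obtain ⟨z, hz, hwz⟩ := hp w hw
        exact ⟨(N ^ m) z, hm z hz, by rw [hwz, map_smul]⟩
      have h11 : ∀ k : ℕ, ∀ w ∈ T₁, ∃ z ∈ T₁, (N ^ (m * k)) w = ϖ ^ k • z := by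
        intro k
        induction k with
        | zero => intro w hw; exact ⟨w, hw, by simp⟩
        | succ k ih =>
          intro w hw
          obtain ⟨z, hz, h⟩ := ih w hw
          obtain ⟨z', hz', h'⟩ := h10 z hz
          refine ⟨z', hz', ?_⟩
          rw [Nat.mul_succ, add_comm, pow_add, Module.End.mul_apply, h, map_smul, h', smul_smul,
            ← pow_succ]
      obtain ⟨x, hx, hx'⟩ := hσ (m * (c + 1))
      apply hx'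
      obtain ⟨z, hz, h⟩ := h11 (c + 1) _ (s3 x hx)
      refine ⟨z, s2 hz, ?_⟩
      rw [map_smul] at h
      apply smul_inj (K := K) hϖ c
      rw [h, smul_smul, ← pow_succ]
  refine ⟨T₂, ⟨fg_of_bounded (K := K) hϖ T₁ T₂ hT₁fg c₁ t3, ?_, t1⟩, t5, ?_⟩
  · rw [eq_top_iff, ← hT₁span]
    exact Submodule.span_mono t2
  · intro v h1 h2
    have : v ∈ GG ϖ ρ a₁ T₂ := mem_GG.2 ⟨h1, h2⟩
    rwa [hGG] at this

end Pool.Agent.TFL
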